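import Pool.Agent.Helper32.PD.Defs

/-! # PD-10a: the coherent system with a constant residue -/

set_option autoImplicit false

namespace Pool.Agent.Helper32.PD

open Finset
open scoped Classical

variable {V : Type}

/-- The coherent system with a constant residue `r`: first leaves from `Qs`. -/
structure Sys1r (F : SimpleGraph V) {Λ : Type} (I Q Qs : Λ → Finset V) (f : Λ → V → V)
    (q r : ℕ) (ξ lam θ : ℝ) (n : ℕ) : Prop where
  sys : Sys1 F I Q f ξ lam θ n
  sub : ∀ l, Qs l ⊆ Q l
  size : ∀ l, ξ / (2 * q) * n ≤ (Qs l).card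
  pop : ∀ l, ∀ x ∈ Qs l, ξ / (2 * q) * n ≤
    (((Q l).filter fun y => f l y ≠ f l x ∧ (hp F (I l) (f l x) (f l y)).length % q = r).card : ℝ)

/-- Restriction of a coherent system to some of the hubs. -/
theorem Sys1.restrict {F : SimpleGraph V} {Λ Λ' : Type} {I Q : Λ → Finset V} {f : Λ → V → V}
    {ξ lam θ : ℝ} {n : ℕ} (S : Sys1 F I Q f ξ lam θ n) (σ : Λ' → Λ)
    (hσ : Function.Injective σ) :
    Sys1 F (fun i => I (σ i)) (fun i => Q (σ i)) (fun i => f (σ i)) ξ lam θ n where
  hubs :=
    { conn := fun l => S.hubs.conn (σ l)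
      hub_anti := fun l l' h => S.hubs.hub_anti (σ l) (σ l') (hσ.ne h)
      leaf_not := fun l => S.hubs.leaf_not (σ l)
      leaf_adj := fun l => S.hubs.leaf_adj (σ l)
      leaf_anti := fun l l' h => S.hubs.leaf_anti (σ l) (σ l') (hσ.ne h) }
  size := fun l => S.size (σ l)
  sparse := fun l l' h => S.sparse (σ l) (σ l') (hσ.ne h)
  single := fun l => S.single (σ l)
  coh := fun l l' h => S.coh (σ l) (σ l') (hσ.ne h)

theorem exists_sys1r (F : SimpleGraph V) (q m : ℕ) (hq : 0 < q) (I Q : Fin (q * m) → Finset V)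
    (f : Fin (q * m) → V → V) (ξ lam θ : ℝ) (n : ℕ) (hθ : 2 * θ ≤ ξ)
    (S : Sys1 F I Q f ξ lam θ n) :
    ∃ (r : ℕ) (σ : Fin m → Fin (q * m)) (Qs : Fin m → Finset V), r < q ∧ Function.Injective σ ∧
      Sys1r F (fun i => I (σ i)) (fun i => Q (σ i)) Qs (fun i => f (σ i)) q r ξ lam θ n := by
  have hq' : (0 : ℝ) < q := by exact_mod_cast hq
  have hn0 : (0 : ℝ) ≤ n := Nat.cast_nonneg n
  have hne : (Finset.range q).Nonempty := ⟨0, Finset.mem_range.mpr hq⟩
  -- the most popular residue at `x`
  have h1 : ∀ l, ∀ x ∈ Q l, ∃ r ∈ Finset.range q, ξ / (2 * q) * n ≤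
      (((Q l).filter fun y => f l y ≠ f l x ∧
        (hp F (I l) (f l x) (f l y)).length % q = r).card : ℝ) := by
    intro l x hx
    set Y := (Q l).filter fun y => f l y ≠ f l x with hY
    have hsplit : ((Q l).filter fun y => f l y = f l x).card + Y.card = (Q l).card := by
      rw [hY]
      exact Finset.card_filter_add_card_filter_not (s := Q l) (fun y => f l y = f l x)
    have hsplit' : (((Q l).filter fun y => f l y = f l x).card : ℝ) + Y.card = (Q l).card := by
      exact_mod_cast hsplit
    have hb : (Finset.range q).card • (ξ / (2 * q) * n) ≤ (Y.card : ℝ) := by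
      rw [Finset.card_range, nsmul_eq_mul]
      have e1 : (q : ℝ) * (ξ / (2 * q) * n) = ξ / 2 * n := by
        field_simp
      rw [e1]
      have e2 := S.single l x hx
      have e3 := S.size l
      have e4 : θ * n ≤ ξ / 2 * n := mul_le_mul_of_nonneg_right (by linarith) hn0
      linarith
    obtain ⟨r, hr, hr'⟩ := Finset.exists_le_card_fiber_of_nsmul_le_card_of_maps_to
      (s := Y) (t := Finset.range q)
      (f := fun y => (hp F (I l) (f l x) (f l y)).length % q)
      (fun y _ => Finset.mem_range.mpr (Nat.mod_lt _ hq)) hne hb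
    refine ⟨r, hr, ?_⟩
    rw [hY, Finset.filter_filter] at hr'
    exact hr'
  choose! ρ hρ hρ' using h1
  -- the most popular value of this residue
  have h2 : ∀ l, ∃ r ∈ Finset.range q,
      ξ / (2 * q) * n ≤ (((Q l).filter fun x => ρ l x = r).card : ℝ) := by
    intro l
    by_cases hQ : (Q l).Nonempty
    · have hb : (Finset.range q).card • (ξ / (2 * q) * n) ≤ ((Q l).card : ℝ) := by
        rw [Finset.card_range, nsmul_eq_mul]
        have e1 : (q : ℝ) * (ξ / (2 * q) * n) = ξ / 2 * n := by
          field_simp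
        rw [e1]
        obtain ⟨x, hx⟩ := hQ
        have e2 := S.single l x hx
        have e5 : (0 : ℝ) ≤ (((Q l).filter fun y => f l y = f l x).card : ℝ) := Nat.cast_nonneg _
        have e3 := S.size l
        have e4 : θ * n ≤ ξ / 2 * n := mul_le_mul_of_nonneg_right (by linarith) hn0
        linarith
      obtain ⟨r, hr, hr'⟩ := Finset.exists_le_card_fiber_of_nsmul_le_card_of_maps_to
        (s := Q l) (t := Finset.range q) (f := fun x => ρ l x) (fun x hx => hρ l x hx) hne hb
      exact ⟨r, hr, hr'⟩
    · rw [Finset.not_nonempty_iff_eq_empty] at hQ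
      refine ⟨0, Finset.mem_range.mpr hq, ?_⟩
      rw [hQ]
      simp only [Finset.filter_empty, Finset.card_empty, Nat.cast_zero]
      have e3 := S.size l
      rw [hQ] at e3
      simp only [Finset.card_empty, Nat.cast_zero] at e3
      have e1 : ξ / (2 * q) * n = (ξ * n) / (2 * q) := by ring
      rw [e1]
      exact div_nonpos_of_nonpos_of_nonneg e3 (by positivity)
  choose R hR hR' using h2
  -- hubs with the same value
  obtain ⟨r, hr, hr'⟩ := Finset.exists_le_card_fiber_of_mul_le_card_of_maps_to
    (s := (Finset.univ : Finset (Fin (q * m)))) (t := Finset.range q) (n := m) (f := R)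
    (fun l _ => hR l) hne (by simp)
  obtain ⟨s, hs, hcard⟩ := Finset.exists_subset_card_eq hr'
  set e := s.orderEmbOfFin hcard with he
  have hRr : ∀ i, R (e i) = r := fun i =>
    (Finset.mem_filter.mp (hs (Finset.orderEmbOfFin_mem s hcard i))).2
  have hinj : Function.Injective fun i => e i := e.injective
  refine ⟨r, fun i => (e i), fun i => (Q (e i)).filter fun x => ρ (e i) x = r,
    Finset.mem_range.mp hr, hinj, ?_⟩
  refine { sys := S.restrict _ hinj, sub := fun l => Finset.filter_subset _ _,
           size := ?_, pop := ?_ }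
  · intro l
    have := hR' (e l)
    rw [hRr l] at this
    exact this
  · intro l x hx
    obtain ⟨hx1, hx2⟩ := Finset.mem_filter.mp hx
    have := hρ' (e l) x hx1
    rw [hx2] at this
    exact this

end Pool.Agent.Helper32.PD
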